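import Pool.Agent.H257.TY.Stm

/-!
# Project TY, leaf AAC (helper922): the operators `AA x` belong to the bicommutant of the `AA (ll g)`
-/

set_option autoImplicit false

namespace Pool.Agent.H257.TY.AAC

open Pool.Agent.H494R3.GT Pool.Agent.N557.QW Pool.Agent.N169.QWP
open Pool.Agent.N414.LR (Op)
open Pool.Agent.N414.LR.RE0 (cj cj_entry cj_mul)
open Pool.Agent.H257.TW
open Pool.Agent.H257.TW.RP

noncomputable section

lemma cj_cj {P : Type} (e : Equiv.Perm P) (X : Op P) : cj e (cj e⁻¹ X) = X := by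
  apply op_ext
  intro p
  apply vec_ext
  intro q
  rw [cj_entry, cj_entry]
  have h : ∀ r, e⁻¹ (e r) = r := fun r => e.symm_apply_apply r
  rw [h, h]

lemma cj_cj' {P : Type} (e : Equiv.Perm P) (X : Op P) : cj e⁻¹ (cj e X) = X := by
  apply op_ext
  intro p
  apply vec_ext
  intro q
  rw [cj_entry, cj_entry]
  have h : ∀ r, e (e⁻¹ r) = r := fun r => e.apply_symm_apply r
  rw [h, h]

lemma cj_inj {P : Type} (e : Equiv.Perm P) {X Y : Op P} (h : cj e X = cj e Y) : X = Y := by
  rw [← cj_cj' e X, h, cj_cj']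

theorem main (h : S_CMP) : S_AAC := by
  intro G Λ _ _ θ U V I R hR x
  set R' : Op (Λ × Λ) := cj (sl Λ)⁻¹ ((kk V).symm R) with hR'
  have hRR : R = kk V (cj (sl Λ) R') := by
    rw [hR', cj_cj, StarAlgEquiv.apply_symm_apply]
  have key : ∀ y : (LG G).toStarSubalgebra,
      (R * AA I y = AA I y * R ↔
        R' * TT Λ Λ (θ y : Op Λ) 1 = TT Λ Λ (θ y : Op Λ) 1 * R') := by
    intro y
    have hA : AA I y = kk V (cj (sl Λ) (TT Λ Λ (θ y : Op Λ) 1)) := rfl
    rw [hA, hRR, ← map_mul, ← map_mul, ← cj_mul, ← cj_mul]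
    constructor
    · intro e
      exact cj_inj _ ((kk V).injective e)
    · intro e
      rw [e]
  obtain ⟨c, hc⟩ := h Λ Λ R'
  rw [key, hc]
  have hU : ∀ y : (LG G).toStarSubalgebra, kk U (θ y : Op Λ) = (y : Op G) := fun y =>
    kk_eq U _ _ (I.ux y)
  intro j j'
  have hg : ∀ g : G, lam g * kk U (c j j') = kk U (c j j') * lam g := by
    intro g
    have h1 := (hc _).1 ((key (ll g)).1 (hR g)) j j'
    have h2 := congrArg (kk U) h1
    rw [map_mul, map_mul, hU] at h2
    exact h2.symm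
  have h3 := commute x.2 hg
  have h4 : kk U (c j j' * (θ x : Op Λ)) = kk U ((θ x : Op Λ) * c j j') := by
    rw [map_mul, map_mul, hU]
    exact h3
  exact (kk U).injective h4

end

end Pool.Agent.H257.TY.AAC
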