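import Pool.Agent.H257.TY.Stm

/-!
# Project TY: the representation of second moments
-/

set_option autoImplicit false

namespace Pool.Agent.H257.TY.Asm

open Pool.Agent.H494R3.GT Pool.Agent.N557.QW Pool.Agent.N169.QWP
open Pool.Agent.N414.LR (Op IsIcc)
open Pool.Agent.H257.HD (Tight)
open Pool.Agent.H257.HD.REP (MM_apply MM_comm)
open Pool.Agent.H257.TW
open Pool.Agent.H257.TW.RP
open Filter

noncomputable section

/-- the key identity -/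
theorem key {G P : Type} [Group G] (π : (LG G).toStarSubalgebra → Op P)
    (hN : ∀ ξ₁ ξ₂ η₁ η₂ : L2 P,
      (∀ g : G, inner ℂ η₁ (π (ll g) ξ₁) = inner ℂ η₂ (π (ll g) ξ₂)) →
      ∀ x, inner ℂ η₁ (π x ξ₁) = inner ℂ η₂ (π x ξ₂))
    (hm : ∀ g h : G, π (ll (g * h)) = π (ll g) * π (ll h))
    (hst : ∀ g : G, star (π (ll g)) = π (ll g⁻¹))
    (β : G → Op P) (hβm : ∀ g h, β (g * h) = β g * β h) (hβs : ∀ g, star (β g) = β g⁻¹)
    (Q : Op P) (hQ : Q * Q = Q) (hQs : star Q = Q) (hQβ : ∀ g, Q * β g = β g * Q)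
    (Z : L2 P) (hZ : ∀ g : G, π (ll g⁻¹) Z = β g Z)
    (x : (LG G).toStarSubalgebra) (hx : π x * star (π x) = 1) : ‖Q (π x Z)‖ = ‖Q Z‖ := by
  have qs : ∀ a b : L2 P, inner ℂ (Q a) b = inner ℂ a (Q b) := fun a b => by
    conv_lhs => rw [← hQs]
    exact inner_star Q a b
  have hZ' : ∀ g : G, π (ll g) Z = β g⁻¹ Z := fun g => by rw [← hZ, inv_inv]
  have s0 : ∀ g h : G, inner ℂ (Q (π (ll g) Z)) (π (ll h) Z) =
      inner ℂ (Q Z) (π (ll h) (star (π (ll g)) Z)) := by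
    intro g h
    have e1 : π (ll h) (star (π (ll g)) Z) = β (g * h⁻¹) Z := by
      rw [hst, ← mul_ap, ← hm, hZ', mul_inv_rev, inv_inv]
    have e2 : Q (π (ll g) Z) = star (β g) (Q Z) := by
      rw [hZ', hβs, ← mul_ap, hQβ, mul_ap]
    rw [e1, e2, inner_star, hZ', hβm, mul_ap]
  have s1 : ∀ (g : G) (x), inner ℂ (Q (π (ll g) Z)) (π x Z) =
      inner ℂ (Q Z) (π x (star (π (ll g)) Z)) := fun g x =>
    hN Z (star (π (ll g)) Z) (Q (π (ll g) Z)) (Q Z) (fun h => s0 g h) x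
  have s2 : ∀ y x, inner ℂ (Q (π y Z)) (π x Z) = inner ℂ Z (π x (star (π y) (Q Z))) := by
    intro y x
    refine hN Z (star (π y) (Q Z)) (Q (π y Z)) Z (fun g => ?_) x
    calc inner ℂ (Q (π y Z)) (π (ll g) Z) = inner ℂ (π y Z) (Q (π (ll g) Z)) := qs _ _
      _ = (starRingEnd ℂ) (inner ℂ (Q (π (ll g) Z)) (π y Z)) := (inner_conj_symm _ _).symm
      _ = (starRingEnd ℂ) (inner ℂ (Q Z) (π y (star (π (ll g)) Z))) := by rw [s1]
      _ = inner ℂ (π y (star (π (ll g)) Z)) (Q Z) := inner_conj_symm _ _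
      _ = inner ℂ (star (star (π y)) (star (π (ll g)) Z)) (Q Z) := by rw [star_star]
      _ = inner ℂ (star (π (ll g)) Z) (star (π y) (Q Z)) := inner_star _ _ _
      _ = inner ℂ Z (π (ll g) (star (π y) (Q Z))) := inner_star _ _ _
  have hQQ : ∀ v : L2 P, Q (Q v) = Q v := fun v => by
    rw [← mul_ap, hQ]
  have s3 : ∀ v : L2 P, inner ℂ (Q v) (Q v) = inner ℂ (Q v) v := fun v => by
    rw [← qs, hQQ]
  have s4 := s2 x x
  have e2 : π x (star (π x) (Q Z)) = Q Z := by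
    rw [← mul_ap, hx]; rfl
  rw [e2, ← s3 (π x Z), ← qs Z Z, ← s3 Z] at s4
  rw [inner_self_eq_norm_sq_to_K, inner_self_eq_norm_sq_to_K] at s4
  have s5 : ‖Q (π x Z)‖ ^ 2 = ‖Q Z‖ ^ 2 := by exact_mod_cast s4
  exact (sq_eq_sq₀ (norm_nonneg _) (norm_nonneg _)).1 s5

section sig
variable {G K : Type} [Group G] (ρ : G →* unitary (Op K))

/-- `ρ ⊗ conj ρ` -/
def sig : G →* unitary (Op (K × K)) where
  toFun g := ⟨TT K K (ρ g) (CC K (ρ g)), by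
    have h1 := (Unitary.mem_iff.1 (ρ g).2).1
    have h2 := (Unitary.mem_iff.1 (ρ g).2).2
    rw [Unitary.mem_iff, TT_star, ← CC_star, ← TT_mul, ← TT_mul, ← CC_mul, ← CC_mul, h1, h2,
      CC_one, TT_one]
    exact ⟨rfl, rfl⟩⟩
  map_one' := by
    apply Subtype.ext
    change TT K K ((ρ 1 : unitary (Op K)) : Op K) (CC K ((ρ 1 : unitary (Op K)) : Op K)) = 1
    rw [map_one]
    change TT K K 1 (CC K 1) = 1
    rw [CC_one, TT_one]
  map_mul' g h := by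
    apply Subtype.ext
    change TT K K ((ρ (g * h) : unitary (Op K)) : Op K) (CC K ((ρ (g * h) : unitary (Op K)) : Op K)) =
      TT K K (ρ g) (CC K (ρ g)) * TT K K (ρ h) (CC K (ρ h))
    rw [map_mul]
    change TT K K ((ρ g : Op K) * (ρ h : Op K)) (CC K ((ρ g : Op K) * (ρ h : Op K))) = _
    rw [CC_mul, TT_mul]

lemma sig_ap (g : G) : (sig ρ g : Op (K × K)) = TT K K (ρ g) (CC K (ρ g)) := rfl

lemma sig_coeff (g : G) (o : K) :
    inner ℂ (dl (o, o)) ((sig ρ g : Op (K × K)) (dl (o, o))) =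
      ((‖inner ℂ (dl o) ((ρ g : Op K) (dl o))‖ ^ 2 : ℝ) : ℂ) := by
  rw [sig_ap, inner_dl, TT_ap, CC_ap, inner_dl, Complex.mul_conj, Complex.normSq_eq_norm_sq]

end sig

section two
variable {G Λ₁ Λ₂ : Type} [Group G] [Group Λ₁] [Group Λ₂]
  {θ₁ : (LG G).toStarSubalgebra ≃⋆ₐ[ℂ] (LG Λ₁).toStarSubalgebra}
  {θ₂ : (LG G).toStarSubalgebra ≃⋆ₐ[ℂ] (LG Λ₂).toStarSubalgebra}
  {U₁ : L2 G ≃ₗᵢ[ℂ] L2 Λ₁} {V₁ : L2 (G × G) ≃ₗᵢ[ℂ] L2 (Λ₁ × Λ₁)}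
  {U₂ : L2 G ≃ₗᵢ[ℂ] L2 Λ₂} {V₂ : L2 (G × G) ≃ₗᵢ[ℂ] L2 (Λ₂ × Λ₂)}
  (I₁ : Imp θ₁ U₁ V₁) (I₂ : Imp θ₂ U₂ V₂)

lemma mm_xx {Λ : Type} [Group Λ] (S : Set Λ) {x : Op Λ} (hx : x ∈ LG Λ) :
    MM (qs S) * XX Λ x = XX Λ x * MM (qs S) := by
  classical
  apply MM_comm
  rintro ⟨a, b⟩ ⟨a', b'⟩
  rw [XX_ap hx]
  by_cases h : b * a⁻¹ = b' * a'⁻¹
  · left
    have h1 : a * b⁻¹ = a' * b'⁻¹ := by
      have := congrArg (fun z => z⁻¹) h
      simpa using this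
    simp only [qs, Set.mem_ofPred_eq, h1]
  · right
    rw [if_neg h, mul_zero]

/-- the left action on `ℓ²((G × G) × (G × G))` -/
def pp (x : (LG G).toStarSubalgebra) : Op ((G × G) × (G × G)) := TT (G × G) (G × G) (AA I₁ x) 1

/-- the other action -/
def bb (g : G) : Op ((G × G) × (G × G)) :=
  TT (G × G) (G × G) (BB I₂ (ll g)) (CC (G × G) (rho I₁ I₂ g))

lemma pp_mul (x y : (LG G).toStarSubalgebra) : pp I₁ (x * y) = pp I₁ x * pp I₁ y := by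
  rw [pp, AA_mul, pp, pp, ← TT_mul, one_mul]

lemma pp_one : pp I₁ 1 = 1 := by rw [pp, AA_one, TT_one]

lemma pp_star (x : (LG G).toStarSubalgebra) : star (pp I₁ x) = pp I₁ (star x) := by
  rw [pp, TT_star, star_one, pp, AA_star]

lemma bb_mul (g h : G) : bb I₁ I₂ (g * h) = bb I₁ I₂ g * bb I₁ I₂ h := by
  have e : ((rho I₁ I₂ (g * h) : unitary (Op (G × G))) : Op (G × G)) =
      (rho I₁ I₂ g : Op (G × G)) * (rho I₁ I₂ h : Op (G × G)) := by rw [map_mul]; rfl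
  rw [bb, ll_mul, BB_mul, e, CC_mul, TT_mul]; rfl

lemma bb_star (g : G) : star (bb I₁ I₂ g) = bb I₁ I₂ g⁻¹ := by
  have e : star ((rho I₁ I₂ g : unitary (Op (G × G))) : Op (G × G)) =
      ((rho I₁ I₂ g⁻¹ : unitary (Op (G × G))) : Op (G × G)) := by rw [map_inv]; rfl
  rw [bb, TT_star, ← BB_star, ll_star, ← CC_star, e]; rfl

lemma pp_star_of (hC : S_CMP) (hA : S_AAC) (R : Op ((G × G) × (G × G)))
    (hR : ∀ g : G, R * pp I₁ (ll g) = pp I₁ (ll g) * R) (x : (LG G).toStarSubalgebra) :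
    R * pp I₁ x = pp I₁ x * R := by
  obtain ⟨c, hc⟩ := hC (G × G) (G × G) R
  rw [pp, hc]
  intro j j'
  exact hA G Λ₁ θ₁ U₁ V₁ I₁ (c j j') (fun g => (hc _).1 (hR g) j j') x

lemma inv_of {Z : L2 ((G × G) × (G × G))}
    (hZ : ∀ g, (sig (rho I₁ I₂) g : Op ((G × G) × (G × G))) Z = Z) (g : G) :
    pp I₁ (ll g⁻¹) Z = bb I₁ I₂ g Z := by
  have e : (sig (rho I₁ I₂) g : Op ((G × G) × (G × G))) = pp I₁ (ll g) * bb I₁ I₂ g := by
    rw [sig_ap, pp, bb, ← TT_mul, one_mul, rho_ap]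
  have h1 := hZ g
  rw [e, mul_ap] at h1
  conv_lhs => rw [← h1]
  rw [← mul_ap, ← pp_mul, ← ll_mul, inv_mul_cancel, ll_one, pp_one]
  rfl

lemma conc (hC : S_CMP) (hA : S_AAC) (hD : S_DEN) {Z : L2 ((G × G) × (G × G))}
    (hZ : ∀ g, (sig (rho I₁ I₂) g : Op ((G × G) × (G × G))) Z = Z) (S : Set Λ₂)
    (x : (LG G).toStarSubalgebra) (hx : x * star x = 1) :
    ‖TT (G × G) (G × G) (kk V₂ (MM (qs S))) 1 (pp I₁ x Z)‖ =
      ‖TT (G × G) (G × G) (kk V₂ (MM (qs S))) 1 Z‖ := by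
  have m1 : MM (qs S) * MM (qs S) = (MM (qs S) : Op (Λ₂ × Λ₂)) := MM_mul_self _
  refine key (pp I₁) ?_ (fun g h => by rw [ll_mul, pp_mul]) (fun g => by rw [pp_star, ll_star])
    (bb I₁ I₂) (bb_mul I₁ I₂) (bb_star I₁ I₂) _ ?_ ?_ ?_ Z (inv_of I₁ I₂ hZ) x ?_
  · exact hD G ((G × G) × (G × G)) (pp I₁) (fun g h => by rw [ll_mul, pp_mul])
      (by rw [ll_one, pp_one]) (fun g => by rw [pp_star, ll_star]) (pp_star_of I₁ hC hA)
  · rw [← TT_mul, ← map_mul, m1, one_mul]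
  · have h : star (kk V₂ (MM (qs S))) = kk V₂ (star (MM (qs S))) := ((kk V₂).map_star' _).symm
    rw [TT_star, h, star_MM, star_one]
  · intro g
    rw [bb, ← TT_mul, ← TT_mul, one_mul, mul_one, BB, ← map_mul, ← map_mul, mm_xx S (θ₂ (ll g)).2]
  · rw [pp_star, ← pp_mul, hx, pp_one]

end two

theorem main (hT : S_TVV) (hI : S_IU) (hC : S_CMP) (hA : S_AAC) (hD : S_DEN) (hV : S_TV1)
    (hR : S_TGT) : S_RP2 := by
  intro G Λ₁ Λ₂ _ _ _ θ₁ θ₂ h₁ h₂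
  obtain ⟨U₁, a₁, b₁⟩ := hI G Λ₁ θ₁ h₁
  obtain ⟨U₂, a₂, b₂⟩ := hI G Λ₂ θ₂ h₂
  obtain ⟨V₁, c₁, d₁⟩ := hT G Λ₁ U₁
  obtain ⟨V₂, c₂, d₂⟩ := hT G Λ₂ U₂
  have I₁ : Imp θ₁ U₁ V₁ := ⟨a₁, b₁, c₁, d₁⟩
  have I₂ : Imp θ₂ U₂ V₂ := ⟨a₂, b₂, c₂, d₂⟩
  refine ⟨sig (rho I₁ I₂), ?_, ?_⟩
  · intro g
    rw [sig_coeff, coeff I₁ I₂, RCLike.norm_conj]
  · rintro ⟨Z, hZ0, hZ⟩ W hW
    obtain ⟨V, hVV⟩ := hV (G × G) (Λ₂ × Λ₂) (G × G) V₂
    refine hR Λ₁ Λ₂ (G × G) W (V Z) ?_ ?_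
    · intro h
      apply hZ0
      exact V.injective (by rw [h, map_zero])
    · intro h S
      set x : (LG G).toStarSubalgebra := θ₁.symm ⟨lam h, lam_mem h⟩ with hx
      have h0 : (θ₁ x : Op Λ₁) = lam h := by
        rw [hx, StarAlgEquiv.apply_symm_apply]
      have h3 : AA I₁ x = TT G G (x : Op G) (x : Op G) := by
        rw [AA, h0, ZZ_lam, ← I₁.kTT, h0]
      have hu : x * star x = 1 := by
        apply EquivLike.injective θ₁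
        have h5 : θ₁ (star x) = star (θ₁ x) := θ₁.map_star' x
        rw [map_mul, h5, map_one, hx, StarAlgEquiv.apply_symm_apply]
        apply Subtype.ext
        change lam h * star (lam h) = 1
        rw [star_lam, ← lam_mul, mul_inv_cancel, lam_one]
      have h6 := conc I₁ I₂ hC hA hD hZ S x hu
      have e1 : ∀ ξ, V (TT (G × G) (G × G) (kk V₂ (MM (qs S))) 1 ξ) =
          TT (Λ₂ × Λ₂) (G × G) (MM (qs S)) 1 (V ξ) :=
        hVV _ _ (fun ξ => by rw [kk_ap, LinearIsometryEquiv.apply_symm_apply])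
      have e2 : ∀ ξ, V (pp I₁ x ξ) =
          TT (Λ₂ × Λ₂) (G × G) (TT Λ₂ Λ₂ (W h) (W h)) 1 (V ξ) := by
        apply hVV
        intro ξ
        rw [h3, hW h]
        exact d₂ _ _ _ _ (b₂ x) (b₂ x) ξ
      rw [← e2, ← e1, ← e1, LinearIsometryEquiv.norm_map, LinearIsometryEquiv.norm_map]
      exact h6

end

end Pool.Agent.H257.TY.Asm
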