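import Pool.Agent.H257.TY.Stm
import Pool.Agent.H257.TW.TVV

/-!
# Project TY, leaf CMP: operators of `ℓ²(P × J)` as matrices of operators (helper353)
-/

set_option autoImplicit false

namespace Pool.Agent.H257.TY.CMP

open Pool.Agent.H494R3.GT Pool.Agent.N557.QW Pool.Agent.N169.QWP
open Pool.Agent.N414.LR (Op IsIcc)
open Pool.Agent.H257.TW
open Pool.Agent.H257.TW.TVV (clm_ext tv tvl tvl_ap tv_dl TT_tv)

noncomputable section

variable {P J : Type}

/-- the inclusion of the copy `j` -/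
def inc (j : J) : L2 P →L[ℂ] L2 (P × J) := tvl (dl j)

theorem inc_dl (j : J) (p : P) : inc j (dl p : L2 P) = dl (p, j) := by
  show tvl (dl j) (dl p) = _
  rw [tvl_ap, tv_dl]

theorem TT_inc (y : Op P) (j : J) (ξ : L2 P) : TT P J y 1 (inc j ξ) = inc j (y ξ) := by
  show TT P J y 1 (tvl (dl j) ξ) = tvl (dl j) (y ξ)
  rw [tvl_ap, TT_tv, tvl_ap]
  rfl

theorem adj_TT (y : Op P) (j : J) (ξ : L2 (P × J)) :
    ContinuousLinearMap.adjoint (inc j) (TT P J y 1 ξ) =
      y (ContinuousLinearMap.adjoint (inc j : L2 P →L[ℂ] L2 (P × J)) ξ) := by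
  refine ext_inner_left ℂ fun η => ?_
  rw [ContinuousLinearMap.adjoint_inner_right]
  have h1 : inner ℂ (inc j η) (TT P J y 1 ξ) = inner ℂ (TT P J (star y) 1 (inc j η)) ξ := by
    have h2 : TT P J (star y) 1 = star (TT P J y 1) := by
      rw [TT_star, star_one]
    rw [h2, ContinuousLinearMap.star_eq_adjoint, ContinuousLinearMap.adjoint_inner_left]
  rw [h1, TT_inc, ← ContinuousLinearMap.adjoint_inner_right, ContinuousLinearMap.star_eq_adjoint,
    ContinuousLinearMap.adjoint_inner_left]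

theorem main : S_CMP := by
  intro P J R
  refine ⟨fun j j' => (ContinuousLinearMap.adjoint (inc j : L2 P →L[ℂ] L2 (P × J))).comp
    (R.comp (inc j')), fun y => ⟨fun h j j' => ?_, fun h => ?_⟩⟩
  · refine ContinuousLinearMap.ext fun ξ => ?_
    show ContinuousLinearMap.adjoint (inc j) (R (inc j' (y ξ))) =
      y (ContinuousLinearMap.adjoint (inc j) (R (inc j' ξ)))
    rw [← TT_inc, ← adj_TT]
    exact congrArg _ (DFunLike.congr_fun h (inc j' ξ))
  · refine clm_ext fun q => vec_ext fun p => ?_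
    obtain ⟨q, j'⟩ := q
    obtain ⟨p, j⟩ := p
    rw [← inner_dl, ← inner_dl, ← inc_dl, ← inc_dl, ← ContinuousLinearMap.adjoint_inner_right,
      ← ContinuousLinearMap.adjoint_inner_right]
    congr 1
    show ContinuousLinearMap.adjoint (inc j) (R (TT P J y 1 (inc j' (dl q)))) =
      ContinuousLinearMap.adjoint (inc j) (TT P J y 1 (R (inc j' (dl q))))
    rw [TT_inc, adj_TT]
    exact DFunLike.congr_fun (h j j') (dl q)

end

end Pool.Agent.H257.TY.CMP
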