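import Pool.Agent.H257.TY.Stm
import Mathlib.Analysis.InnerProductSpace.ProdL2
import Mathlib.Analysis.InnerProductSpace.Adjoint
import Mathlib.Analysis.InnerProductSpace.Projection.Basic

/-!
# TY, leaf DEN: the von Neumann density theorem for two vectors
-/

set_option autoImplicit false

namespace Pool.Agent.H257.TY.DEN

noncomputable section

section gen

set_option linter.unusedSectionVars false

variable {H : Type*} [NormedAddCommGroup H] [InnerProductSpace ℂ H] [CompleteSpace H]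

/-- the Hilbert sum of two copies of `H` -/
abbrev KK (H : Type*) := WithLp 2 (H × H)

/-- the inclusions of the summands -/
def I1 : H →L[ℂ] KK H :=
  ((WithLp.prodContinuousLinearEquiv 2 ℂ H H).symm : H × H →L[ℂ] KK H) ∘L
    ContinuousLinearMap.inl ℂ H H

/-- the inclusions of the summands -/
def I2 : H →L[ℂ] KK H :=
  ((WithLp.prodContinuousLinearEquiv 2 ℂ H H).symm : H × H →L[ℂ] KK H) ∘L
    ContinuousLinearMap.inr ℂ H H

/-- the projections to the summands -/
def P1 : KK H →L[ℂ] H :=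
  ContinuousLinearMap.fst ℂ H H ∘L
    ((WithLp.prodContinuousLinearEquiv 2 ℂ H H) : KK H →L[ℂ] H × H)

/-- the projections to the summands -/
def P2 : KK H →L[ℂ] H :=
  ContinuousLinearMap.snd ℂ H H ∘L
    ((WithLp.prodContinuousLinearEquiv 2 ℂ H H) : KK H →L[ℂ] H × H)

/-- the diagonal operator -/
def D (y : H →L[ℂ] H) : KK H →L[ℂ] KK H := I1 ∘L y ∘L P1 + I2 ∘L y ∘L P2

theorem P1_I1 (a : H) : P1 (I1 a) = a := rfl
theorem P2_I2 (a : H) : P2 (I2 a) = a := rfl
theorem P1_I2 (a : H) : P1 (I2 a) = 0 := rfl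
theorem P2_I1 (a : H) : P2 (I1 a) = 0 := rfl

theorem ext' {a b : KK H} (h1 : P1 a = P1 b) (h2 : P2 a = P2 b) : a = b := by
  have : (WithLp.prodContinuousLinearEquiv 2 ℂ H H) a = (WithLp.prodContinuousLinearEquiv 2 ℂ H H) b :=
    Prod.ext h1 h2
  exact (WithLp.prodContinuousLinearEquiv 2 ℂ H H).injective this

theorem dec (a : KK H) : a = I1 (P1 a) + I2 (P2 a) := by
  apply ext'
  · rw [map_add, P1_I1, P1_I2, add_zero]
  · rw [map_add, P2_I1, P2_I2, zero_add]

theorem inn (a b : KK H) : inner ℂ a b = inner ℂ (P1 a) (P1 b) + inner ℂ (P2 a) (P2 b) :=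
  WithLp.prod_inner_apply a b

theorem D_ap (y : H →L[ℂ] H) (a : KK H) : D y a = I1 (y (P1 a)) + I2 (y (P2 a)) := rfl

theorem P1_D (y : H →L[ℂ] H) (a : KK H) : P1 (D y a) = y (P1 a) := by
  rw [D_ap, map_add, P1_I1, P1_I2, add_zero]

theorem P2_D (y : H →L[ℂ] H) (a : KK H) : P2 (D y a) = y (P2 a) := by
  rw [D_ap, map_add, P2_I1, P2_I2, zero_add]

theorem D_I1 (y : H →L[ℂ] H) (a : H) : D y (I1 a) = I1 (y a) := by
  rw [D_ap, P1_I1, P2_I1, map_zero, map_zero, add_zero]

theorem D_I2 (y : H →L[ℂ] H) (a : H) : D y (I2 a) = I2 (y a) := by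
  rw [D_ap, P1_I2, P2_I2, map_zero, map_zero, zero_add]

theorem D_mul (x y : H →L[ℂ] H) (a : KK H) : D (x * y) a = D x (D y a) := by
  apply ext'
  · rw [P1_D, P1_D, P1_D]; rfl
  · rw [P2_D, P2_D, P2_D]; rfl

theorem D_one (a : KK H) : D (1 : H →L[ℂ] H) a = a := by
  apply ext'
  · rw [P1_D]; rfl
  · rw [P2_D]; rfl

theorem D_star (y : H →L[ℂ] H) (a b : KK H) : inner ℂ a (D y b) = inner ℂ (D (star y) a) b := by
  rw [inn, inn, P1_D, P2_D, P1_D, P2_D, ContinuousLinearMap.star_eq_adjoint,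
    ContinuousLinearMap.adjoint_inner_left, ContinuousLinearMap.adjoint_inner_left]

/-- the density theorem for two vectors -/
theorem density {ι : Type*} (s : ι → H →L[ℂ] H) (hmul : ∀ i j, ∃ k, s i * s j = s k)
    (h1 : ∃ k, s k = 1) (hst : ∀ i, ∃ j, star (s i) = s j) (T : H →L[ℂ] H)
    (hT : ∀ R : H →L[ℂ] H, (∀ i, R * s i = s i * R) → R * T = T * R)
    (ξ₁ ξ₂ η₁ η₂ : H) (h : ∀ i, inner ℂ η₁ (s i ξ₁) = inner ℂ η₂ (s i ξ₂)) :
    inner ℂ η₁ (T ξ₁) = inner ℂ η₂ (T ξ₂) := by
  set v : KK H := I1 ξ₁ + I2 ξ₂ with hv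
  have hv1 : P1 v = ξ₁ := by rw [hv, map_add, P1_I1, P1_I2, add_zero]
  have hv2 : P2 v = ξ₂ := by rw [hv, map_add, P2_I1, P2_I2, zero_add]
  set S : Submodule ℂ (KK H) := Submodule.span ℂ (Set.range fun i => D (s i) v) with hS
  set M : Submodule ℂ (KK H) := S.topologicalClosure with hM
  have hMc : IsClosed (M : Set (KK H)) := S.isClosed_topologicalClosure
  have : CompleteSpace M := hMc.completeSpace_coe
  have hSM : S ≤ M := S.le_topologicalClosure
  have hmin : ∀ N : Submodule ℂ (KK H), IsClosed (N : Set (KK H)) →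
      (∀ i, D (s i) v ∈ N) → M ≤ N := by
    intro N hN hi
    apply Submodule.topologicalClosure_minimal _ _ hN
    rw [hS, Submodule.span_le]
    rintro _ ⟨i, rfl⟩
    exact hi i
  have hgen : ∀ i, D (s i) v ∈ M := fun i => hSM (Submodule.subset_span ⟨i, rfl⟩)
  have inv : ∀ j, ∀ m ∈ M, D (s j) m ∈ M := by
    intro j
    have : M ≤ M.comap (D (s j) : KK H →ₗ[ℂ] KK H) := by
      apply hmin
      · exact hMc.preimage (D (s j)).continuous
      · intro i
        obtain ⟨k, hk⟩ := hmul j i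
        show D (s j) (D (s i) v) ∈ M
        rw [← D_mul, hk]
        exact hgen k
    exact this
  have perp : ∀ j, ∀ m ∈ Mᗮ, D (s j) m ∈ Mᗮ := by
    intro j m hm
    rw [Submodule.mem_orthogonal] at hm ⊢
    intro u hu
    obtain ⟨k, hk⟩ := hst j
    rw [D_star, hk]
    exact hm _ (inv k u hu)
  set E : KK H →L[ℂ] KK H := M.starProjection with hE
  have comm : ∀ j x, E (D (s j) x) = D (s j) (E x) := by
    intro j x
    apply Submodule.eq_starProjection_of_mem_orthogonal
    · exact inv j _ (Submodule.starProjection_apply_mem M x)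
    · rw [← map_sub]
      exact perp j _ (Submodule.sub_starProjection_mem_orthogonal x)
  have entry : ∀ (P : KK H →L[ℂ] H) (I : H →L[ℂ] KK H),
      (∀ (y : H →L[ℂ] H) a, P (D y a) = y (P a)) → (∀ (y : H →L[ℂ] H) a, D y (I a) = I (y a)) →
      ∀ a, P (E (I (T a))) = T (P (E (I a))) := by
    intro P I hP hI a
    have := hT (P ∘L E ∘L I) (by
      intro i
      ext z
      show P (E (I (s i z))) = s i (P (E (I z)))
      rw [← hI, comm, hP])
    exact congrArg (fun X : H →L[ℂ] H => X a) this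
  have commT : ∀ x, E (D T x) = D T (E x) := by
    intro x
    apply ext'
    · rw [P1_D]
      conv_rhs => rw [dec x]
      rw [D_ap, map_add, map_add, map_add, map_add, map_add, entry P1 I1 P1_D D_I1,
        entry P1 I2 P1_D D_I2]
    · rw [P2_D]
      conv_rhs => rw [dec x]
      rw [D_ap, map_add, map_add, map_add, map_add, map_add, entry P2 I1 P2_D D_I1,
        entry P2 I2 P2_D D_I2]
  have hvM : v ∈ M := by
    obtain ⟨k, hk⟩ := h1
    have := hgen k
    rwa [hk, D_one] at this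
  have hTv : D T v ∈ M := by
    have e1 : E v = v := Submodule.starProjection_eq_self_iff.mpr hvM
    have e2 : E (D T v) = D T v := by rw [commT, e1]
    rw [← e2]
    exact Submodule.starProjection_apply_mem M _
  have hw : M ≤ (Submodule.span ℂ {I1 η₁ - I2 η₂})ᗮ := by
    apply hmin
    · exact Submodule.isClosed_orthogonal _
    · intro i
      rw [Submodule.mem_orthogonal_singleton_iff_inner_right, inn, P1_D, P2_D, map_sub, map_sub,
        P1_I1, P1_I2, P2_I1, P2_I2, hv1, hv2, sub_zero, zero_sub, inner_neg_left, h i]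
      ring
  have := hw hTv
  rw [Submodule.mem_orthogonal_singleton_iff_inner_right, inn, P1_D, P2_D, map_sub, map_sub,
    P1_I1, P1_I2, P2_I1, P2_I2, hv1, hv2, sub_zero, zero_sub, inner_neg_left] at this
  linear_combination this

end gen

open Pool.Agent.H494R3.GT Pool.Agent.N557.QW Pool.Agent.N169.QWP
open Pool.Agent.N414.LR (Op IsIcc)
open Pool.Agent.H257.TW Pool.Agent.H257.TW.RP

/-- leaf DEN -/
theorem main : S_DEN := by
  intro G P _ π hmul h1 hst hT ξ₁ ξ₂ η₁ η₂ h x
  exact density (fun g : G => π (ll g)) (fun i j => ⟨i * j, (hmul i j).symm⟩) ⟨1, h1⟩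
    (fun i => ⟨i⁻¹, hst i⟩) (π x) (fun R hR => hT R hR x) ξ₁ ξ₂ η₁ η₂ h

end

end Pool.Agent.H257.TY.DEN
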