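import Pool.Agent.H257.TY.Stm

/-!
# PK2: the linear packing bound (helper51)
-/

set_option autoImplicit false

namespace Pool.Agent.H257.TY.PK2

open Finset

/-- one coordinate of an almost orthogonal family of unit vectors -/
theorem row {P : Type} {N : ℕ} (a : Fin N → P → ℂ) (ha : ∀ i, HasSum (fun p => ‖a i p‖ ^ 2) 1)
    (p : P) :
    ∑ i, ‖a i p‖ ^ 2 ≤ 1 + √(∑ x : Fin N × Fin N,
      (if x.1 = x.2 then 0 else ‖∑' q, (starRingEnd ℂ) (a x.1 q) * a x.2 q‖) ^ 2) := by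
  classical
  obtain ⟨G, hG⟩ : ∃ G : Fin N → Fin N → ℂ, ∀ i i',
    ∑' q, (starRingEnd ℂ) (a i q) * a i' q = G i i' := ⟨_, fun _ _ => rfl⟩
  have hS : ∀ i i', HasSum (fun q => (starRingEnd ℂ) (a i q) * a i' q) (G i i') := by
    intro i i'
    rw [← hG]
    refine Summable.hasSum ?_
    refine Summable.of_norm_bounded ((ha i).summable.add (ha i').summable) fun q => ?_
    rw [norm_mul, RCLike.norm_conj]
    nlinarith [sq_nonneg (‖a i q‖ - ‖a i' q‖), norm_nonneg (a i q), norm_nonneg (a i' q)]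
  have hdiag : ∀ i, ‖G i i‖ = 1 := by
    intro i
    have h1 : HasSum (fun q => (starRingEnd ℂ) (a i q) * a i q) ((1 : ℝ) : ℂ) := by
      have h2 := Complex.hasSum_ofReal.2 (ha i)
      have h3 : (fun q => (starRingEnd ℂ) (a i q) * a i q) =
          fun q => ((‖a i q‖ ^ 2 : ℝ) : ℂ) := by
        funext q
        rw [Complex.conj_mul']
        push_cast
        rfl
      rw [h3]
      exact h2
    rw [(hS i i).unique h1]
    simp
  simp only [hG]
  -- the vector `v = ∑ conj (c i) a i`, `c i = a i p`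
  obtain ⟨c, hc⟩ : ∃ c : Fin N → ℂ, ∀ i, c i = a i p := ⟨_, fun _ => rfl⟩
  obtain ⟨s, hs⟩ : ∃ s : ℝ, s = ∑ i, ‖a i p‖ ^ 2 := ⟨_, rfl⟩
  have hs0 : 0 ≤ s := by
    rw [hs]
    exact sum_nonneg fun i _ => sq_nonneg _
  have hv : HasSum (fun q => ∑ i, ∑ i', (c i * (starRingEnd ℂ) (c i')) *
      ((starRingEnd ℂ) (a i q) * a i' q)) (∑ i, ∑ i', (c i * (starRingEnd ℂ) (c i')) * G i i') :=
    hasSum_sum fun i _ => hasSum_sum fun i' _ => (hS i i').mul_left _
  have hv2 : (fun q => ∑ i, ∑ i', (c i * (starRingEnd ℂ) (c i')) *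
      ((starRingEnd ℂ) (a i q) * a i' q)) =
      fun q => ((‖∑ i, (starRingEnd ℂ) (c i) * a i q‖ ^ 2 : ℝ) : ℂ) := by
    funext q
    have h1 := Complex.conj_mul' (∑ i, (starRingEnd ℂ) (c i) * a i q)
    rw [Complex.ofReal_pow, ← h1, map_sum, sum_mul_sum]
    refine sum_congr rfl fun i _ => sum_congr rfl fun i' _ => ?_
    rw [map_mul, Complex.conj_conj]
    ring
  rw [hv2] at hv
  have hre := Complex.hasSum_re hv
  simp only [Complex.ofReal_re] at hre
  have hle := le_hasSum hre p fun q _ => sq_nonneg _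
  have hvp : ‖∑ i, (starRingEnd ℂ) (c i) * a i p‖ = s := by
    have h1 : ∑ i, (starRingEnd ℂ) (c i) * a i p = ((s : ℝ) : ℂ) := by
      rw [hs, Complex.ofReal_sum]
      refine sum_congr rfl fun i _ => ?_
      rw [hc, Complex.conj_mul']
      push_cast
      rfl
    rw [h1, Complex.norm_real, Real.norm_eq_abs, abs_of_nonneg hs0]
  rw [hvp] at hle
  have hup : (∑ i, ∑ i', (c i * (starRingEnd ℂ) (c i')) * G i i').re ≤
      ∑ i, ∑ i', ‖c i‖ * ‖c i'‖ * ‖G i i'‖ := by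
    refine (Complex.re_le_norm _).trans ?_
    refine (norm_sum_le _ _).trans (sum_le_sum fun i _ => ?_)
    refine (norm_sum_le _ _).trans (sum_le_sum fun i' _ => ?_)
    rw [norm_mul, norm_mul, RCLike.norm_conj]
  obtain ⟨H, hH⟩ : ∃ H : Fin N × Fin N → ℝ, ∀ x, H x = if x.1 = x.2 then 0 else ‖G x.1 x.2‖ :=
    ⟨_, fun _ => rfl⟩
  have hsplit : ∑ i, ∑ i', ‖c i‖ * ‖c i'‖ * ‖G i i'‖ =
      s + ∑ x : Fin N × Fin N, (‖c x.1‖ * ‖c x.2‖) * H x := by
    rw [Fintype.sum_prod_type, hs, ← sum_add_distrib]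
    refine sum_congr rfl fun i _ => ?_
    have h1 : ∀ i', ‖c i‖ * ‖c i'‖ * ‖G i i'‖ =
        (if i = i' then ‖c i‖ ^ 2 else 0) + (‖c i‖ * ‖c i'‖) * H (i, i') := by
      intro i'
      rw [hH]
      by_cases h : i = i'
      · subst h
        simp only [if_true, hdiag]
        ring
      · simp only [h, if_false]
        ring
    simp only [h1]
    rw [sum_add_distrib, sum_ite_eq, if_pos (mem_univ i), hc]
  have hcs : ∑ x : Fin N × Fin N, (‖c x.1‖ * ‖c x.2‖) * H x ≤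
      s * √(∑ x : Fin N × Fin N, H x ^ 2) := by
    have h1 := sum_mul_sq_le_sq_mul_sq (univ : Finset (Fin N × Fin N))
      (fun x => ‖c x.1‖ * ‖c x.2‖) H
    have h2 : ∑ x : Fin N × Fin N, (‖c x.1‖ * ‖c x.2‖) ^ 2 = s ^ 2 := by
      rw [Fintype.sum_prod_type, sq, hs, sum_mul_sum]
      refine sum_congr rfl fun i _ => sum_congr rfl fun i' _ => ?_
      simp only [hc]
      ring
    rw [h2] at h1
    have h3 : 0 ≤ ∑ x : Fin N × Fin N, H x ^ 2 := sum_nonneg fun x _ => sq_nonneg _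
    refine (le_abs_self _).trans ?_
    refine abs_le_of_sq_le_sq ?_ (mul_nonneg hs0 (Real.sqrt_nonneg _))
    rw [mul_pow, Real.sq_sqrt h3]
    exact h1
  have hH2 : ∑ x : Fin N × Fin N, H x ^ 2 =
      ∑ x : Fin N × Fin N, (if x.1 = x.2 then 0 else ‖G x.1 x.2‖) ^ 2 :=
    sum_congr rfl fun x _ => by rw [hH]
  rw [hH2] at hcs
  rw [← hs]
  obtain ⟨Γ, hΓ⟩ : ∃ Γ : ℝ, Γ = √(∑ x : Fin N × Fin N,
    (if x.1 = x.2 then 0 else ‖G x.1 x.2‖) ^ 2) := ⟨_, rfl⟩
  have hΓ0 : 0 ≤ Γ := by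
    rw [hΓ]
    exact Real.sqrt_nonneg _
  rw [← hΓ] at hcs ⊢
  have hfin : s ^ 2 ≤ s + s * Γ := by linarith
  by_contra hcon
  push Not at hcon
  nlinarith

theorem main : S_PK2 := by
  classical
  intro P N m E D δ η hm hδ hD hor hout
  have hm0 : (0 : ℝ) < m := by exact_mod_cast hm
  obtain ⟨H, hH⟩ : ∃ H : Fin m → Fin N × Fin N → ℝ, ∀ j x, (if x.1 = x.2 then 0 else
      ‖∑' q, (starRingEnd ℂ) (D x.1 j q) * D x.2 j q‖) = H j x := ⟨_, fun _ _ => rfl⟩
  have hrow : ∀ j p, ∑ i, ‖D i j p‖ ^ 2 ≤ 1 + √(∑ x : Fin N × Fin N, H j x ^ 2) := by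
    intro j p
    have h1 := row (fun i => D i j) (fun i => hD i j) p
    simp only [hH] at h1
    exact h1
  obtain ⟨Γ, hΓ⟩ : ∃ Γ : Fin m → ℝ, ∀ j, Γ j = √(∑ x : Fin N × Fin N, H j x ^ 2) :=
    ⟨_, fun _ => rfl⟩
  simp only [← hΓ] at hrow
  have hΓ2 : ∑ j, Γ j ^ 2 ≤ (N : ℝ) ^ 2 * (m * δ ^ 2) := by
    have h1 : ∀ j, Γ j ^ 2 = ∑ x : Fin N × Fin N, H j x ^ 2 := by
      intro j
      rw [hΓ, Real.sq_sqrt (sum_nonneg fun x _ => sq_nonneg _)]
    simp only [h1]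
    rw [sum_comm]
    have h2 : ∀ x ∈ (univ : Finset (Fin N × Fin N)), ∑ j, H j x ^ 2 ≤ m * δ ^ 2 := by
      intro x _
      simp only [← hH]
      by_cases h : x.1 = x.2
      · simp only [h, if_true]
        have : (0 : ℝ) ≤ m * δ ^ 2 := by positivity
        simpa using this
      · simp only [h, if_false]
        exact hor x.1 x.2 h
    refine (sum_le_sum h2).trans ?_
    rw [sum_const, card_univ, Fintype.card_prod, Fintype.card_fin, nsmul_eq_mul]
    push_cast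
    nlinarith
  have hΓ1 : ∑ j, Γ j ≤ m * N * δ := by
    have h1 := sum_mul_sq_le_sq_mul_sq (univ : Finset (Fin m)) (fun _ => (1 : ℝ)) Γ
    simp only [one_mul, one_pow, sum_const, card_univ, Fintype.card_fin, nsmul_eq_mul,
      mul_one] at h1
    refine (le_abs_self _).trans ?_
    refine abs_le_of_sq_le_sq ?_ (by positivity)
    have h2 := mul_le_mul_of_nonneg_left hΓ2 hm0.le
    calc (∑ j, Γ j) ^ 2 ≤ m * ∑ j, Γ j ^ 2 := h1
      _ ≤ m * ((N : ℝ) ^ 2 * (m * δ ^ 2)) := h2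
      _ = (m * N * δ) ^ 2 := by ring
  have hup : ∑ j, ∑ p ∈ E, ∑ i, ‖D i j p‖ ^ 2 ≤ E.card * (m + m * N * δ) := by
    have h1 : ∀ j ∈ (univ : Finset (Fin m)), ∑ p ∈ E, ∑ i, ‖D i j p‖ ^ 2 ≤
        E.card * (1 + Γ j) := by
      intro j _
      refine (sum_le_sum fun p _ => hrow j p).trans ?_
      rw [sum_const, nsmul_eq_mul]
    refine (sum_le_sum h1).trans ?_
    rw [← mul_sum, sum_add_distrib, sum_const, card_univ, Fintype.card_fin, nsmul_eq_mul, mul_one]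
    exact mul_le_mul_of_nonneg_left (by linarith) (Nat.cast_nonneg _)
  have hlow : (N : ℝ) * (m - η * m) ≤ ∑ j, ∑ p ∈ E, ∑ i, ‖D i j p‖ ^ 2 := by
    have h1 : ∀ i ∈ (univ : Finset (Fin N)), (m : ℝ) - η * m ≤ ∑ j, ∑ p ∈ E, ‖D i j p‖ ^ 2 := by
      intro i _
      have h2 := hout i
      rw [sum_sub_distrib, sum_const, card_univ, Fintype.card_fin, nsmul_eq_mul, mul_one] at h2
      linarith
    have h3 := sum_le_sum h1
    rw [sum_const, card_univ, Fintype.card_fin, nsmul_eq_mul] at h3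
    refine h3.trans (le_of_eq ?_)
    rw [sum_comm]
    refine sum_congr rfl fun j _ => ?_
    rw [sum_comm]
  have h4 : ((N : ℝ) * (1 - η - E.card * δ)) * m ≤ E.card * m := by nlinarith
  exact le_of_mul_le_mul_right h4 hm0

end Pool.Agent.H257.TY.PK2
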