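import Pool.Agent.H257.TY.Stm
import Pool.Agent.H257.HD.HSB
import Pool.Agent.H257.HD.TLB

/-!
# Project TY, leaf TGT (helper370): concentrated translates give a tight operator
-/

set_option autoImplicit false
set_option linter.unusedSectionVars false

namespace Pool.Agent.H257.TY.TGT

open Pool.Agent.H494R3.GT Pool.Agent.N557.QW Pool.Agent.N169.QWP
open Pool.Agent.N414.LR (Op)
open Pool.Agent.N2.LR.HS (mk2 mk2_apply sq_summable sq_tsum)
open Pool.Agent.H257.HD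
open Pool.Agent.H257.TW
open Pool.Agent.H257.HD.REP (MM_apply ap_coeff ap_summable enorm_sq exists_small)
open scoped ENNReal Topology Pointwise
open Filter

noncomputable section

section slices

variable {P J : Type}

lemma pair_inj (j : J) : Function.Injective (fun p : P => ((p, j) : P × J)) := by
  intro p q e
  exact (Prod.ext_iff.1 e).1

/-- the slice of `Z` at `j` -/
def slc (Z : L2 (P × J)) (j : J) : L2 P :=
  mk2 (fun p => Z (p, j)) ((sq_summable Z).comp_injective (pair_inj j))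

lemma slc_ap (Z : L2 (P × J)) (j : J) (p : P) : (slc Z j) p = Z (p, j) := rfl

lemma slc_TT (y : Op P) (Z : L2 (P × J)) (j : J) (p : P) :
    (TT P J y 1 Z) (p, j) = (y (slc Z j)) p := by
  rw [ap_coeff, ap_coeff, ← (pair_inj (P := P) j).tsum_eq]
  · refine tsum_congr fun q => ?_
    have e1 : ((1 : Op J) (dl j) : L2 J) j = 1 := dl_apply_self j
    rw [TT_ap, e1, mul_one, slc_ap]
  · rintro ⟨q, k⟩ hqk
    by_cases e : j = k
    · exact ⟨q, by rw [e]⟩
    · exfalso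
      apply hqk
      beta_reduce
      have e1 : ((1 : Op J) (dl k) : L2 J) j = 0 := dl_apply_ne e
      rw [TT_ap, e1, mul_zero, zero_mul]

lemma slc_le (Z : L2 (P × J)) (j : J) : ‖slc Z j‖ₑ ^ 2 ≤ ‖Z‖ₑ ^ 2 := by
  rw [enorm_sq, enorm_sq]
  exact ENNReal.tsum_comp_le_tsum_of_injective (pair_inj (P := P) j) (fun y => ‖Z y‖ₑ ^ 2)

lemma slc_slc (y : Op P) (Z : L2 (P × J)) (j : J) : slc (TT P J y 1 Z) j = y (slc Z j) := by
  apply vec_ext
  intro p
  rw [slc_ap, slc_TT]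

lemma TT_MM (X : Set P) (Z : L2 (P × J)) :
    TT P J (MM X) 1 Z = MM (X ×ˢ (Set.univ : Set J)) Z := by
  apply vec_ext
  rintro ⟨p, k⟩
  rw [slc_TT, MM_apply, MM_apply, slc_ap]
  by_cases h : p ∈ X
  · rw [if_pos h, if_pos (show ((p, k) : P × J) ∈ X ×ˢ (Set.univ : Set J) from ⟨h, trivial⟩)]
  · rw [if_neg h, if_neg (fun h2 : ((p, k) : P × J) ∈ X ×ˢ (Set.univ : Set J) => h h2.1)]

end slices

section ops

variable {Λ : Type} [Group Λ]

lemma ts_le (x : L2 (Λ × Λ)) : ∑' b, ∑' d, ‖x (b, d)‖ₑ ^ 2 = ‖x‖ₑ ^ 2 := by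
  rw [enorm_sq]
  exact (ENNReal.tsum_prod (f := fun b d => ‖x (b, d)‖ₑ ^ 2)).symm

/-- the entries of the translates -/
lemma key (w : Op Λ) (ζ : L2 (Λ × Λ)) (K : Op Λ) (hK : ∀ b d, (K (dl d)) b = ζ (b, d)) (b d : Λ) :
    en (w * K * CC Λ (star w)) b d = (TT Λ Λ w w ζ) (b, d) := by
  rw [en, mul_ap, mul_ap, ap_coeff]
  have hS := ap_summable (TT Λ Λ w w) ζ (b, d)
  rw [ap_coeff (TT Λ Λ w w), hS.tsum_prod]
  refine tsum_congr fun p => ?_
  rw [ap_coeff K (CC Λ (star w) (dl d)) p, ← tsum_mul_left]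
  refine tsum_congr fun q => ?_
  rw [hK, CC_ap, star_ap, starRingEnd_self_apply, TT_ap]
  ring

lemma CC_unit (w : Op Λ) (h1 : star w * w = 1) (h2 : w * star w = 1) :
    CC Λ (star w) * star (CC Λ (star w)) = 1 ∧ star (CC Λ (star w)) * CC Λ (star w) = 1 := by
  rw [← CC_star, star_star, ← CC_mul, ← CC_mul, h1, h2, CC_one]
  exact ⟨rfl, rfl⟩

end ops

theorem main : S_TGT := by
  classical
  intro Λ₁ Λ J _ _ W Z hZ hinv
  obtain ⟨⟨⟨a₀, b₀⟩, j⟩, hne⟩ : ∃ x, Z x ≠ 0 := by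
    by_contra hcon
    push Not at hcon
    exact hZ (vec_ext hcon)
  set ζ : L2 (Λ × Λ) := slc Z j with hζ
  obtain ⟨K, -, hK⟩ := Pool.Agent.N2.LR.HS.main Λ ζ
  have hK' : ∀ b d, (K (dl d)) b = ζ (b, d) := by
    intro b d
    rw [← inner_dl, hK]
  have hKne : K ≠ 0 := by
    intro h0
    apply hne
    have h1 := hK' a₀ b₀
    rw [h0] at h1
    exact h1.symm
  have hsK : hs K < ∞ := by
    have h1 : hs K = ‖ζ‖ₑ ^ 2 := by
      rw [← ts_le, hs]
      refine tsum_congr fun b => tsum_congr fun d => ?_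
      rw [en, hK']
    rw [h1]
    exact ENNReal.pow_lt_top enorm_lt_top
  have HB : HSB Λ := HSB.main Λ
  have TB : TLB Λ := TLB.main Λ
  -- the translates
  let Kh : Λ₁ → Op Λ := fun h => (W h : Op Λ) * K * CC Λ (star (W h : Op Λ))
  have un1 : ∀ h, star (W h : Op Λ) * (W h : Op Λ) = 1 := fun h => (Unitary.mem_iff.1 (W h).2).1
  have un2 : ∀ h, (W h : Op Λ) * star (W h : Op Λ) = 1 := fun h => (Unitary.mem_iff.1 (W h).2).2
  have hKh : ∀ h, ad (W h : Op Λ) (K * star K) = Kh h * star (Kh h) := by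
    intro h
    obtain ⟨c1, -⟩ := CC_unit (W h : Op Λ) (un1 h) (un2 h)
    show (W h : Op Λ) * (K * star K) * star (W h : Op Λ) =
      ((W h : Op Λ) * K * CC Λ (star (W h : Op Λ))) *
        star ((W h : Op Λ) * K * CC Λ (star (W h : Op Λ)))
    rw [star_mul, star_mul]
    calc (W h : Op Λ) * (K * star K) * star (W h : Op Λ)
        = (W h : Op Λ) * K * 1 * (star K * star (W h : Op Λ)) := by
          rw [mul_one]; simp only [mul_assoc]
      _ = (W h : Op Λ) * K * (CC Λ (star (W h : Op Λ)) * star (CC Λ (star (W h : Op Λ)))) *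
            (star K * star (W h : Op Λ)) := by rw [c1]
      _ = _ := by simp only [mul_assoc]
  have hsKh : ∀ h, hs (Kh h) = hs K := by
    intro h
    obtain ⟨c1, c2⟩ := CC_unit (W h : Op Λ) (un1 h) (un2 h)
    have hu : CC Λ (star (W h : Op Λ)) ∈ unitary (Op Λ) := Unitary.mem_iff.2 ⟨c2, c1⟩
    show hs ((W h : Op Λ) * K * CC Λ (star (W h : Op Λ))) = hs K
    rw [(HB.uni _ _ hu).2, (HB.uni _ _ (W h).2).1]
  have htl : ∀ (A : Set Λ) (h : Λ₁), tl A (Kh h) ≤ ‖TT (Λ × Λ) J (MM (qs Aᶜ)) 1 Z‖ₑ ^ 2 := by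
    intro A h
    have h1 : tl A (Kh h) = ‖MM (qs Aᶜ) (TT Λ Λ (W h) (W h) ζ)‖ₑ ^ 2 := by
      rw [← ts_le, tl]
      refine tsum_congr fun b => tsum_congr fun d => ?_
      rw [MM_apply, key (W h : Op Λ) ζ K hK']
      by_cases h2 : b * d⁻¹ ∈ A
      · have h3 : ((b, d) : Λ × Λ) ∉ qs Aᶜ := fun h4 => h4 h2
        rw [if_pos h2, if_neg h3]
        simp
      · have h3 : ((b, d) : Λ × Λ) ∈ qs Aᶜ := h2
        rw [if_neg h2, if_pos h3]
    have h2 : MM (qs Aᶜ) (TT Λ Λ (W h) (W h) ζ) =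
        slc (TT (Λ × Λ) J (MM (qs Aᶜ)) 1 (TT (Λ × Λ) J (TT Λ Λ (W h) (W h)) 1 Z)) j := by
      rw [slc_slc, slc_slc]
    rw [h1, h2]
    refine (slc_le _ j).trans (le_of_eq ?_)
    rw [← ofReal_norm, ← ofReal_norm, hinv h Aᶜ]
  refine ⟨K * star K, ?_, ?_, ?_⟩
  · intro h0
    exact hKne (CStarRing.mul_star_self_eq_zero_iff K |>.1 h0)
  · refine lt_of_le_of_lt (HB.mul K (star K)) ?_
    rw [HB.star]
    exact ENNReal.mul_lt_top hsK hsK
  · intro ε hε
    have hC : 4 * hs K + 1 ≠ ∞ := by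
      refine ENNReal.add_ne_top.2 ⟨ENNReal.mul_ne_top (by norm_num) hsK.ne, by norm_num⟩
    have hε' : 0 < ε / (4 * hs K + 1) := ENNReal.div_pos hε.ne' hC
    obtain ⟨Φ, hΦ⟩ := exists_small Z (ε / (4 * hs K + 1)) hε'
    set A : Set Λ := (fun x : (Λ × Λ) × J => x.1.1 * x.1.2⁻¹) '' (Φ : Set ((Λ × Λ) × J)) with hA
    have hAf : A.Finite := Φ.finite_toSet.image _
    refine ⟨A * A⁻¹, hAf.mul hAf.inv, fun h => ?_⟩
    rw [hKh h]
    have h1 : tl A (Kh h) ≤ ε / (4 * hs K + 1) := by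
      refine (htl A h).trans ?_
      rw [TT_MM]
      refine hΦ _ ?_
      rintro ⟨⟨p, q⟩, k⟩ hp hpΦ
      apply hp.1
      exact ⟨((p, q), k), hpΦ, rfl⟩
    calc tl (A * A⁻¹) (Kh h * star (Kh h))
        ≤ 2 * (tl A (Kh h) * hs (star (Kh h))) + 2 * (hs (Kh h) * tl A⁻¹ (star (Kh h))) :=
          TB.mul A A⁻¹ (Kh h) (star (Kh h))
      _ = 4 * hs K * tl A (Kh h) := by
          rw [TB.star, HB.star, hsKh]
          ring
      _ ≤ (4 * hs K + 1) * (ε / (4 * hs K + 1)) := by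
          gcongr
          exact le_self_add
      _ ≤ ε := ENNReal.mul_div_le

end

end Pool.Agent.H257.TY.TGT
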