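import Pool.Agent.H257.TY.Stm
import Pool.Agent.H257.TW.TVV

/-!
# Project TY, leaf TV1: a unitary tensored with the identity (helper339, adaptation of TVV of helper268)
-/

set_option autoImplicit false

namespace Pool.Agent.H257.TY.TV1

open Pool.Agent.H494R3.GT Pool.Agent.N557.QW
open Pool.Agent.N414.LR (Op IsIcc)
open Pool.Agent.H257.TW
open Pool.Agent.H257.TW.TVV (clm_ext tv tv_ap tvl tvl_ap tvr tvr_ap tv_dl tv_inner TT_tv)

noncomputable section

/-- the tensor product of two unitaries -/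
theorem tens {P P' Q Q' : Type} (U : L2 P ≃ₗᵢ[ℂ] L2 P') (W : L2 Q ≃ₗᵢ[ℂ] L2 Q') :
    ∃ V : L2 (P × Q) ≃ₗᵢ[ℂ] L2 (P' × Q'), ∀ (x : Op P) (y : Op Q) (x' : Op P') (y' : Op Q'),
      (∀ ξ, U (x ξ) = x' (U ξ)) → (∀ ξ, W (y ξ) = y' (W ξ)) →
      ∀ ξ, V (TT P Q x y ξ) = TT P' Q' x' y' (V ξ) := by
  classical
  -- the orthonormal family
  have hon : Orthonormal ℂ (fun r : P × Q => tv (U (dl r.1)) (W (dl r.2))) := by
    rw [orthonormal_iff_ite]
    intro r s
    rw [tv_inner, LinearIsometryEquiv.inner_map_map, LinearIsometryEquiv.inner_map_map, dl_inner, dl_inner]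
    by_cases h1 : r.1 = s.1
    · by_cases h2 : r.2 = s.2
      · rw [if_pos h1, if_pos h2, if_pos (Prod.ext h1 h2), mul_one]
      · rw [if_neg h2, mul_zero, if_neg fun h => h2 (congrArg Prod.snd h)]
    · rw [if_neg h1, zero_mul, if_neg fun h => h1 (congrArg Prod.fst h)]
  have htot : (Submodule.span ℂ (Set.range fun r : P × Q => tv (U (dl r.1)) (W (dl r.2))))ᗮ = ⊥ := by
    rw [Submodule.eq_bot_iff]
    intro ζ hζ
    have h0 : ∀ a b, inner ℂ ζ (tv (U (dl a)) (W (dl b))) = 0 := by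
      intro a b
      rw [← inner_conj_symm, (Submodule.mem_orthogonal _ _).1 hζ _ (Submodule.subset_span ⟨(a, b), rfl⟩), map_zero]
    have h1 : ∀ a, ((innerSL ℂ ζ).comp (tvr (U (dl a)))).comp (W.toContinuousLinearEquiv : L2 Q →L[ℂ] L2 Q') = 0 := by
      intro a
      exact clm_ext fun b => h0 a b
    have h1' : ∀ a (y : L2 Q'), inner ℂ ζ (tv (U (dl a)) y) = 0 := by
      intro a y
      have := DFunLike.congr_fun (h1 a) (W.symm y)
      have h2 : inner ℂ ζ (tv (U (dl a)) (W (W.symm y))) = 0 := this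
      rwa [LinearIsometryEquiv.apply_symm_apply] at h2
    have h2 : ∀ y : L2 Q', ((innerSL ℂ ζ).comp (tvl y)).comp (U.toContinuousLinearEquiv : L2 P →L[ℂ] L2 P') = 0 := by
      intro y
      exact clm_ext fun a => h1' a y
    have h2' : ∀ (x : L2 P') (y : L2 Q'), inner ℂ ζ (tv x y) = 0 := by
      intro x y
      have := DFunLike.congr_fun (h2 y) (U.symm x)
      have h3 : inner ℂ ζ (tv (U (U.symm x)) y) = 0 := this
      rwa [LinearIsometryEquiv.apply_symm_apply] at h3
    refine vec_ext fun r => ?_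
    obtain ⟨p, q⟩ := r
    rw [← inner_dl, ← inner_conj_symm, ← tv_dl, h2', map_zero]
    rfl
  let B : HilbertBasis (P × Q) ℂ (L2 (P' × Q')) := HilbertBasis.mkOfOrthogonalEqBot hon htot
  have hB : ∀ r : P × Q, B.repr.symm (dl r) = tv (U (dl r.1)) (W (dl r.2)) := by
    intro r
    have h1 : B.repr.symm (lp.single 2 r (1 : ℂ)) = B r := HilbertBasis.repr_symm_single B r
    have h2 : B r = tv (U (dl r.1)) (W (dl r.2)) := by
      rw [HilbertBasis.coe_mkOfOrthogonalEqBot hon htot]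
    have h3 : (dl r : L2 (P × Q)) = lp.single 2 r (1 : ℂ) := by
      refine vec_ext fun s => ?_
      by_cases h : s = r
      · subst h
        rw [dl_apply_self]
        simp [lp.single_apply]
      · rw [dl_apply_ne h]
        simp [lp.single_apply, h]
    rw [← h2, ← h1, h3]
  refine ⟨B.repr.symm, fun x y x' y' hx hy ξ => ?_⟩
  have hV : ∀ (ξ : L2 P) (η : L2 Q), B.repr.symm (tv ξ η) = tv (U ξ) (W η) := by
    intro ξ η
    have h1 : ∀ p, (B.repr.symm.toContinuousLinearEquiv : L2 (P × Q) →L[ℂ] L2 (P' × Q')).comp (tvr (dl p)) =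
        (tvr (U (dl p))).comp (W.toContinuousLinearEquiv : L2 Q →L[ℂ] L2 Q') := by
      intro p
      refine clm_ext fun q => ?_
      show B.repr.symm (tv (dl p) (dl q)) = tv (U (dl p)) (W (dl q))
      rw [tv_dl, hB]
    have h2 : (B.repr.symm.toContinuousLinearEquiv : L2 (P × Q) →L[ℂ] L2 (P' × Q')).comp (tvl η) =
        (tvl (W η)).comp (U.toContinuousLinearEquiv : L2 P →L[ℂ] L2 P') := by
      refine clm_ext fun p => ?_
      exact DFunLike.congr_fun (h1 p) η
    exact DFunLike.congr_fun h2 ξ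
  have h3 : (B.repr.symm.toContinuousLinearEquiv : L2 (P × Q) →L[ℂ] L2 (P' × Q')).comp (TT P Q x y) =
      (TT P' Q' x' y').comp (B.repr.symm.toContinuousLinearEquiv : L2 (P × Q) →L[ℂ] L2 (P' × Q')) := by
    refine clm_ext fun r => ?_
    obtain ⟨a, b⟩ := r
    show B.repr.symm (TT P Q x y (dl (a, b))) = TT P' Q' x' y' (B.repr.symm (dl (a, b)))
    rw [← tv_dl, TT_tv, hV, hV, TT_tv, hx, hy]
  exact DFunLike.congr_fun h3 ξ

theorem main : S_TV1 := by
  intro P P' J U
  obtain ⟨V, hV⟩ := tens U (LinearIsometryEquiv.refl ℂ (L2 J))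
  exact ⟨V, fun x x' hx ξ => hV x 1 x' 1 hx (fun _ => rfl) ξ⟩

end

end Pool.Agent.H257.TY.TV1
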