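import Pool.Agent.H257.TY.Asm
import Pool.Agent.H257.TY.CMP
import Pool.Agent.H257.TY.AAC
import Pool.Agent.H257.TY.DEN
import Pool.Agent.H257.TY.TV1
import Pool.Agent.H257.TY.TGT
import Pool.Agent.H257.TY.PK2
import Pool.Agent.H257.TW.Main

/-!
# Project TY: assembly
-/

set_option autoImplicit false

namespace Pool.Agent.H257.TY

open Pool.Agent.H494R3.GT Pool.Agent.N557.QW
open Pool.Agent.N414.LR (Op IsIcc)
open Pool.Agent.W661.RC (HasT)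
open Pool.Agent.H257.HD (Tight)
open Pool.Agent.H257.TW
open Filter

noncomputable section

/-- the averaging operator of `S` has norm at most `q |S|` in all unitary representations without
invariant vectors -/
def Avg (G : Type) [Group G] (S : Finset G) (q : ℝ) : Prop :=
  ∀ (H : Type) [NormedAddCommGroup H] [InnerProductSpace ℂ H] [CompleteSpace H]
    (π : G →* unitary (H →L[ℂ] H)),
    (∀ x : H, (∀ g : G, (π g : H →L[ℂ] H) x = x) → x = 0) →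
    ∀ ξ : H, ‖∑ s ∈ S, (π s : H →L[ℂ] H) ξ‖ ≤ q * S.card * ‖ξ‖

/-- the averaging operator for a Kazhdan pair -/
theorem avg_of (G : Type) [Group G] (S : Finset G) (h1 : 1 ∈ S) (κ q : ℝ) (hκ : 0 ≤ κ) (hq0 : 0 ≤ q)
    (hq : 1 - κ ^ 2 / (S.card : ℝ) ^ 2 ≤ q ^ 2)
    (hK : ∀ (H : Type) [NormedAddCommGroup H] [InnerProductSpace ℂ H] [CompleteSpace H]
      (π : G →* unitary (H →L[ℂ] H)),
      (∀ x : H, (∀ g : G, (π g : H →L[ℂ] H) x = x) → x = 0) →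
      ∀ ξ : H, ∃ s ∈ S, κ * ‖ξ‖ ≤ ‖(π s : H →L[ℂ] H) ξ - ξ‖) : Avg G S q := by
  classical
  intro H _ _ _ π hni ξ
  have hk0 : 0 < (S.card : ℝ) := by
    have : 0 < S.card := Finset.card_pos.2 ⟨1, h1⟩
    exact_mod_cast this
  obtain ⟨s, hs, hsk⟩ := hK H π hni ξ
  have h2 : κ ^ 2 * ‖ξ‖ ^ 2 ≤ ∑ s ∈ S, ‖(π s : H →L[ℂ] H) ξ - ξ‖ ^ 2 := by
    refine le_trans ?_ (Finset.single_le_sum (f := fun s => ‖(π s : H →L[ℂ] H) ξ - ξ‖ ^ 2)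
      (fun t _ => by positivity) hs)
    rw [← mul_pow]
    gcongr
  have h4 := Pool.Agent.H257.HD.GAP.avg_le S (fun s => (π s : H →L[ℂ] H) ξ) 1 h1 ‖ξ‖
    (fun s _ => Pool.Agent.H257.HD.GAP.norm_uni _ _)
  have h5 : (π 1 : H →L[ℂ] H) ξ = ξ := by simp
  simp only [h5] at h4
  have h6 : ‖∑ s ∈ S, (π s : H →L[ℂ] H) ξ‖ ^ 2 ≤ (q * S.card * ‖ξ‖) ^ 2 := by
    have h8 : (1 - κ ^ 2 / (S.card : ℝ) ^ 2) * (S.card : ℝ) ^ 2 * ‖ξ‖ ^ 2 ≤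
        q ^ 2 * (S.card : ℝ) ^ 2 * ‖ξ‖ ^ 2 := by gcongr
    have h9 : (1 - κ ^ 2 / (S.card : ℝ) ^ 2) * (S.card : ℝ) ^ 2 * ‖ξ‖ ^ 2 =
        ((S.card : ℝ) * ‖ξ‖) ^ 2 - κ ^ 2 * ‖ξ‖ ^ 2 := by
      field_simp
    rw [h9] at h8
    have h7 : (q * S.card * ‖ξ‖) ^ 2 = q ^ 2 * (S.card : ℝ) ^ 2 * ‖ξ‖ ^ 2 := by ring
    rw [h7]
    linarith
  exact le_of_sq_le_sq h6 (by positivity)

/-- the dichotomy for second moments -/
theorem dich (G : Type) [Group G] (hicc : IsIcc G) (S : Finset G) (r : ℝ) (hr0 : 0 ≤ r)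
    (hr : Avg G S r) (Λ₁ Λ₂ : Type) [Group Λ₁] [Group Λ₂]
    (θ₁ : (LG G).toStarSubalgebra ≃⋆ₐ[ℂ] (LG Λ₁).toStarSubalgebra)
    (θ₂ : (LG G).toStarSubalgebra ≃⋆ₐ[ℂ] (LG Λ₂).toStarSubalgebra)
    (h₁ : ∀ x, cf (θ₁ x : Op Λ₁) 1 = cf (x : Op G) 1)
    (h₂ : ∀ x, cf (θ₂ x : Op Λ₂) 1 = cf (x : Op G) 1) :
    GpL (θ₁.symm.trans θ₂) ∨
      ∀ n : ℕ, ∑ w ∈ Fintype.piFinset (fun _ : Fin n => S),
        ‖∑' p, (starRingEnd ℂ) (DD θ₁ (List.ofFn w).prod p) * DD θ₂ (List.ofFn w).prod p‖ ^ 2 ≤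
          (r * S.card) ^ n := by
  classical
  obtain ⟨ρ, hco, hinv⟩ := Asm.main TVV.main IU.main CMP.main (AAC.main CMP.main) DEN.main TV1.main
    TGT.main G Λ₁ Λ₂ θ₁ θ₂ h₁ h₂
  by_cases hζ : ∃ ζ : L2 ((G × G) × (G × G)), ζ ≠ 0 ∧ ∀ g, (ρ g : Op ((G × G) × (G × G))) ζ = ζ
  · left
    exact gl_of_tight Λ₁ Λ₂ (ICC.main G Λ₁ ⟨θ₁⟩ hicc) _ (symm_trace G Λ₁ Λ₂ θ₁ θ₂ h₁ h₂)
      (hinv hζ)
  · right
    intro n
    set o : L2 ((G × G) × (G × G)) := dl ((1, 1), (1, 1)) with ho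
    have ho1 : ‖o‖ = 1 :=
      (dl_orthonormal (P := (G × G) × (G × G)) (f := fun g => g) Function.injective_id).1
        ((1, 1), (1, 1))
    have h4 := Pool.Agent.H257.HD.GAP.pow G S r (L2 ((G × G) × (G × G))) ρ hr0 (hr _ ρ (by
      intro x hx
      by_contra hne
      exact hζ ⟨x, hne, hx⟩)) n o
    have h5 : ((∑ w ∈ Fintype.piFinset (fun _ : Fin n => S),
        ‖∑' p, (starRingEnd ℂ) (DD θ₁ (List.ofFn w).prod p) * DD θ₂ (List.ofFn w).prod p‖ ^ 2 :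
          ℝ) : ℂ) =
        inner ℂ o (∑ w ∈ Fintype.piFinset (fun _ : Fin n => S),
          (ρ (List.ofFn w).prod : Op ((G × G) × (G × G))) o) := by
      rw [inner_sum, Complex.ofReal_sum]
      exact Finset.sum_congr rfl fun w _ => (hco _).symm
    have h6 := norm_inner_le_norm (𝕜 := ℂ) o (∑ w ∈ Fintype.piFinset (fun _ : Fin n => S),
          (ρ (List.ofFn w).prod : Op ((G × G) × (G × G))) o)
    rw [← h5, ho1, one_mul, Complex.norm_real, Real.norm_eq_abs,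
      abs_of_nonneg (Finset.sum_nonneg fun _ _ => by positivity)] at h6
    rw [ho1, mul_one] at h4
    exact h6.trans h4

end

end Pool.Agent.H257.TY
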