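import Pool.Agent.H257.TW.PACK

/-!
# PK4: the packing bound with explicit constants and sets which depend on the index
-/

set_option autoImplicit false

namespace Pool.Agent.H257.TY.PK4

open Finset MeasureTheory Metric Module

/-- a `d`-separated subset of the unit ball of a real vector space of finite dimension `k` has at most
`(1 + 2 / d) ^ k` elements (after `Besicovitch.card_le_of_separated`) -/
theorem card_le {E : Type} [NormedAddCommGroup E] [NormedSpace ℝ E] [FiniteDimensional ℝ E]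
    (s : Finset E) (d : ℝ) (hd : 0 < d) (hs : ∀ c ∈ s, ‖c‖ ≤ 1)
    (h : ∀ c ∈ s, ∀ c' ∈ s, c ≠ c' → d ≤ ‖c - c'‖) :
    (s.card : ℝ) ≤ (1 + 2 / d) ^ finrank ℝ E := by
  borelize E
  let μ : Measure E := Measure.addHaar
  obtain ⟨δ, hδ⟩ : ∃ δ : ℝ, δ = d / 2 := ⟨_, rfl⟩
  obtain ⟨ρ, hρ⟩ : ∃ ρ : ℝ, ρ = 1 + d / 2 := ⟨_, rfl⟩
  have δpos : 0 < δ := by rw [hδ]; positivity
  have ρpos : 0 < ρ := by rw [hρ]; positivity
  set A := ⋃ c ∈ s, ball (c : E) δ with hA
  have D : Set.Pairwise (s : Set E) (Function.onFun Disjoint fun c => ball (c : E) δ) := by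
    rintro c hc c' hc' hcd
    apply ball_disjoint_ball
    rw [dist_eq_norm]
    have := h c hc c' hc' hcd
    rw [hδ]
    linarith
  have A_subset : A ⊆ ball (0 : E) ρ := by
    refine Set.iUnion₂_subset fun x hx => ?_
    apply ball_subset_ball'
    rw [dist_zero_right, hδ, hρ]
    have := hs x hx
    linarith
  have I : (s.card : ENNReal) * ENNReal.ofReal (δ ^ finrank ℝ E) * μ (ball 0 1) ≤
      ENNReal.ofReal (ρ ^ finrank ℝ E) * μ (ball 0 1) :=
    calc
      (s.card : ENNReal) * ENNReal.ofReal (δ ^ finrank ℝ E) * μ (ball 0 1) = μ A := by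
        rw [hA, measure_biUnion_finset D fun c _ => measurableSet_ball]
        simp only [μ.addHaar_ball_of_pos _ δpos]
        simp only [Finset.sum_const, nsmul_eq_mul, mul_assoc]
      _ ≤ μ (ball (0 : E) ρ) := measure_mono A_subset
      _ = ENNReal.ofReal (ρ ^ finrank ℝ E) * μ (ball 0 1) := by
        simp only [μ.addHaar_ball_of_pos _ ρpos]
  have J : (s.card : ENNReal) * ENNReal.ofReal (δ ^ finrank ℝ E) ≤
      ENNReal.ofReal (ρ ^ finrank ℝ E) :=
    (ENNReal.mul_le_mul_iff_left (measure_ball_pos _ _ zero_lt_one).ne' measure_ball_lt_top.ne).1 I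
  have K : (s.card : ℝ) * δ ^ finrank ℝ E ≤ ρ ^ finrank ℝ E := by
    have h1 := ENNReal.toReal_le_of_le_ofReal (pow_nonneg ρpos.le _) J
    rw [ENNReal.toReal_mul, ENNReal.toReal_natCast, ENNReal.toReal_ofReal (by positivity)] at h1
    exact h1
  have h2 : (1 + 2 / d : ℝ) = ρ / δ := by
    rw [hρ, hδ]
    field_simp
    ring
  rw [h2, div_pow, le_div_iff₀ (by positivity)]
  exact K

/-- The packing bound: `D i j`, `i < N`, `j < m`, are unit vectors of `ℓ²(P)`; for `i ≠ i'` the square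
mean over `j` of the inner products of `D i j` and `D i' j` is at most `δ`, and the mass of `D i j`
outside of a finite set `E j` is at most `η` in mean over `j`; if `2 δ + 4 η < 2`, then
`N ≤ (1 + 2 / d) ^ (2 ∑ |E j|)` with `d² = 2 - 2 δ - 4 η`. -/
theorem main (P : Type) (N m : ℕ) (E : Fin m → Finset P) (D : Fin N → Fin m → P → ℂ) (δ η : ℝ)
    (hm : 0 < m) (hδ : 0 ≤ δ) (hd : 0 < 2 - 2 * δ - 4 * η)
    (hD : ∀ i j, HasSum (fun p => ‖D i j p‖ ^ 2) 1)
    (hor : ∀ i i', i ≠ i' →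
      ∑ j, ‖∑' p, (starRingEnd ℂ) (D i j p) * D i' j p‖ ^ 2 ≤ (m : ℝ) * δ ^ 2)
    (hout : ∀ i, ∑ j, (1 - ∑ p ∈ E j, ‖D i j p‖ ^ 2) ≤ η * m) :
    (N : ℝ) ≤ (1 + 2 / √(2 - 2 * δ - 4 * η)) ^ (2 * ∑ j, (E j).card) := by
  classical
  have hm0 : (0 : ℝ) < m := by exact_mod_cast hm
  have hsm : 0 < Real.sqrt m := Real.sqrt_pos.2 hm0
  obtain ⟨x, hx⟩ : ∃ x : Fin N → EuclideanSpace ℂ ((j : Fin m) × E j), ∀ i j p,
      x i ⟨j, p⟩ = D i j p / (Real.sqrt m : ℂ) :=
    ⟨fun i => WithLp.toLp 2 (fun q : (j : Fin m) × E j => D i q.1 q.2 / (Real.sqrt m : ℂ)),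
      fun _ _ _ => rfl⟩
  have hnm : ‖(Real.sqrt m : ℂ)‖ ^ 2 = m := by
    rw [Complex.norm_real, Real.norm_eq_abs, abs_of_pos hsm, Real.sq_sqrt hm0.le]
  have hn1 : ∀ i, ‖x i‖ ^ 2 = (∑ j, ∑ p ∈ E j, ‖D i j p‖ ^ 2) / m := by
    intro i
    rw [EuclideanSpace.norm_sq_eq, Fintype.sum_sigma, sum_div]
    refine sum_congr rfl fun j _ => ?_
    rw [← Finset.sum_coe_sort (E j) (fun p => ‖D i j p‖ ^ 2), sum_div]
    refine sum_congr rfl fun p _ => ?_
    rw [hx, norm_div, div_pow, hnm]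
  have hn2 : ∀ i i', ‖x i - x i'‖ ^ 2 = (∑ j, ∑ p ∈ E j, ‖D i j p - D i' j p‖ ^ 2) / m := by
    intro i i'
    rw [EuclideanSpace.norm_sq_eq, Fintype.sum_sigma, sum_div]
    refine sum_congr rfl fun j _ => ?_
    rw [← Finset.sum_coe_sort (E j) (fun p => ‖D i j p - D i' j p‖ ^ 2), sum_div]
    refine sum_congr rfl fun p _ => ?_
    rw [PiLp.sub_apply, hx, hx, ← sub_div, norm_div, div_pow, hnm]
  have hball : ∀ i, ‖x i‖ ≤ 1 := by
    intro i
    have h1 : ‖x i‖ ^ 2 ≤ 1 := by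
      rw [hn1, div_le_one hm0]
      have h2 : ∀ j ∈ (univ : Finset (Fin m)), ∑ p ∈ E j, ‖D i j p‖ ^ 2 ≤ 1 := fun j _ =>
        sum_le_hasSum (E j) (fun p _ => sq_nonneg _) (hD i j)
      refine (sum_le_sum h2).trans ?_
      rw [sum_const, card_univ, Fintype.card_fin, nsmul_eq_mul, mul_one]
    nlinarith [norm_nonneg (x i)]
  have hsep : ∀ i i', i ≠ i' → √(2 - 2 * δ - 4 * η) ≤ ‖x i - x i'‖ := by
    intro i i' hii
    have h1 : ∑ j : Fin m, (2 - 2 * (∑' p, (starRingEnd ℂ) (D i j p) * D i' j p).re -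
        2 * (1 - ∑ p ∈ E j, ‖D i j p‖ ^ 2) - 2 * (1 - ∑ p ∈ E j, ‖D i' j p‖ ^ 2)) ≤
        ∑ j, ∑ p ∈ E j, ‖D i j p - D i' j p‖ ^ 2 :=
      sum_le_sum fun j _ => Pool.Agent.H257.TW.PACK.row (E j) (D i j) (D i' j) (hD i j) (hD i' j)
    rw [sum_sub_distrib, sum_sub_distrib, sum_sub_distrib, ← mul_sum, ← mul_sum, ← mul_sum,
      sum_const, card_univ, Fintype.card_fin, nsmul_eq_mul] at h1
    have h2 : ∑ j, (∑' p, (starRingEnd ℂ) (D i j p) * D i' j p).re ≤ m * δ := by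
      have h3 := sum_mul_sq_le_sq_mul_sq (univ : Finset (Fin m)) (fun _ => (1 : ℝ))
        (fun j => ‖∑' p, (starRingEnd ℂ) (D i j p) * D i' j p‖)
      simp only [one_mul, one_pow, sum_const, card_univ, Fintype.card_fin, nsmul_eq_mul,
        mul_one] at h3
      have h4 : ∑ j, ‖∑' p, (starRingEnd ℂ) (D i j p) * D i' j p‖ ≤ m * δ := by
        refine (le_abs_self _).trans ?_
        refine abs_le_of_sq_le_sq ?_ (by positivity)
        refine h3.trans ?_
        have h5 := mul_le_mul_of_nonneg_left (hor i i' hii) hm0.le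
        calc _ ≤ (m : ℝ) * (m * δ ^ 2) := h5
          _ = (m * δ) ^ 2 := by ring
      exact (sum_le_sum fun j _ => Complex.re_le_norm _).trans h4
    have h4 := hout i
    have h5 := hout i'
    have h7 : 2 - 2 * δ - 4 * η ≤ ‖x i - x i'‖ ^ 2 := by
      rw [hn2, le_div_iff₀ hm0]
      nlinarith
    rw [← Real.sqrt_sq (norm_nonneg (x i - x i'))]
    exact Real.sqrt_le_sqrt h7
  have hd' : 0 < √(2 - 2 * δ - 4 * η) := Real.sqrt_pos.2 hd
  have hinj : Function.Injective x := by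
    intro i i' h
    by_contra hne
    have h1 := hsep i i' hne
    rw [h, sub_self, norm_zero] at h1
    linarith
  have h1 := card_le (E := EuclideanSpace ℂ ((j : Fin m) × E j))
    (univ.image x) (√(2 - 2 * δ - 4 * η)) hd' (by
      intro c hc
      obtain ⟨i, -, rfl⟩ := mem_image.1 hc
      exact hball i) (by
      intro c hc c' hc' hcd
      obtain ⟨i, -, rfl⟩ := mem_image.1 hc
      obtain ⟨i', -, rfl⟩ := mem_image.1 hc'
      exact hsep i i' fun h => hcd (by rw [h]))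
  rw [card_image_of_injective _ hinj, card_univ, Fintype.card_fin, finrank_real_of_complex,
    finrank_euclideanSpace, Fintype.card_sigma] at h1
  simpa only [Fintype.card_coe] using h1

end Pool.Agent.H257.TY.PK4
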