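import Pool.Agent.H257.TW.RP
import Pool.Agent.H257.HD.REP

/-!
# Project TY: second moments of the correlations of two comultiplications

Continuation of project TW.  For inequivalent isomorphisms `θ₁`, `θ₂` the mean over `S^n` of
`|⟨D_θ₁(g), D_θ₂(g)⟩|²` decays exponentially; this gives a linear bound for the number of pairwise
inequivalent isomorphisms of given complexity.
-/

set_option autoImplicit false

namespace Pool.Agent.H257.TY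

open Pool.Agent.H494R3.GT Pool.Agent.N557.QW Pool.Agent.N169.QWP
open Pool.Agent.N414.LR (Op IsIcc)
open Pool.Agent.H257.HD (Tight)
open Pool.Agent.H257.TW
open Pool.Agent.H257.TW.RP
open Filter

noncomputable section

/-- CMP: an operator on `ℓ²(P × J)` as a matrix of operators on `ℓ²(P)`.
Proof.  For `j ∈ J` let `ι j : ℓ²(P) → ℓ²(P × J)`, `(ι j ξ) (p, k) = ξ p` if `k = j`, `0` otherwise
(an isometry; `ι j (dl p) = dl (p, j)`; for instance `Pool.Agent.H257.TW.TVV.tvl (dl j)`), and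
`c j j' = adjoint (ι j) ∘ R ∘ ι j'`.  With `TT_ap`: `TT y 1 ∘ ι j = ι j ∘ y` and, taking adjoints
(`TT_star`), `adjoint (ι j) ∘ TT y 1 = y ∘ adjoint (ι j)`.  So
`adjoint (ι j) ∘ (R * TT y 1) ∘ ι j' = c j j' * y` and
`adjoint (ι j) ∘ (TT y 1 * R) ∘ ι j' = y * c j j'`, and two operators `X`, `X'` of `ℓ²(P × J)` are equal
iff `adjoint (ι j) ∘ X ∘ ι j' = adjoint (ι j) ∘ X' ∘ ι j'` for all `j, j'` (the entries of `X` are
`⟨dl (p, j), X (dl (q, j'))⟩ = ⟨dl p, (adjoint (ι j) ∘ X ∘ ι j') (dl q)⟩`). -/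
def S_CMP : Prop :=
  ∀ (P J : Type) (R : Op (P × J)), ∃ c : J → J → Op P, ∀ y : Op P,
    (R * TT P J y 1 = TT P J y 1 * R ↔ ∀ j j', c j j' * y = y * c j j')

/-- AAC: the operators `AA x`, `x ∈ L(G)`, belong to the bicommutant of the `AA (ll g)`.
Proof.  `AA I x = kk V (ZZ Λ (θ x)) = kk V (cj (sl Λ) (TT Λ Λ (θ x) 1))`.  `kk V` and `cj (sl Λ)` are
conjugations with unitaries (`kk V` is a `≃⋆ₐ`; for `cj e` of `N414.LR.RE0`: `cj_mul`, `cj_entry`,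
and `cj e (cj e.symm X) = X` by entries).  So with `R' = cj (sl Λ).symm ((kk V).symm R)` the claim is
that `R'` commutes with `TT (θ x) 1`, if it commutes with all `TT (θ (ll g)) 1`.  By `S_CMP` this
means that the operators `c j j'` of `ℓ²(Λ)` commute with `θ x`, if they commute with all
`θ (ll g)`.  Put `d = kk U (c j j')`; as `kk U (θ x : Op Λ) = (x : Op G)` (`kk_eq`, `I.ux`) it
suffices that `d` commutes with `x`, and it commutes with all `lam g`: `commute` of `N169.QWP`. -/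
def S_AAC : Prop :=
  ∀ (G Λ : Type) [Group G] [Group Λ]
    (θ : (LG G).toStarSubalgebra ≃⋆ₐ[ℂ] (LG Λ).toStarSubalgebra)
    (U : L2 G ≃ₗᵢ[ℂ] L2 Λ) (V : L2 (G × G) ≃ₗᵢ[ℂ] L2 (Λ × Λ)) (I : Imp θ U V) (R : Op (G × G)),
    (∀ g : G, R * AA I (ll g) = AA I (ll g) * R) → ∀ x, R * AA I x = AA I x * R

/-- DEN: von Neumann density theorem for two vectors.
Proof.  In the Hilbert space `K = WithLp 2 (L2 P × L2 P)` let `D y (a, b) = (y a, y b)` for `y : Op P`, and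
let `M` be the closure of the span of the vectors `D (π (ll g)) (ξ₁, ξ₂)`, `g ∈ G`, `E` the
orthogonal projection on `M`.  `M` is invariant under all `D (π (ll h))` and their adjoints
`D (π (ll h⁻¹))`, so `E` commutes with `D (π (ll h))`.  So the four entries `R` of `E` (compositions
with the inclusions and projections of the two summands) commute with all `π (ll h)`, so with
`π x`, and `E` commutes with `D (π x)`.  `(ξ₁, ξ₂) = D (π (ll 1)) (ξ₁, ξ₂) ∈ M`, so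
`D (π x) (ξ₁, ξ₂) = D (π x) E (ξ₁, ξ₂) = E D (π x) (ξ₁, ξ₂) ∈ M`.  The continuous functional
`(a, b) ↦ ⟨η₁, a⟩ - ⟨η₂, b⟩` vanishes on `M`.  (One may also work in `L2 (P × Bool)` or in
`L2 (P ⊕ P)`.) -/
def S_DEN : Prop :=
  ∀ (G P : Type) [Group G] (π : (LG G).toStarSubalgebra → Op P),
    (∀ g h : G, π (ll (g * h)) = π (ll g) * π (ll h)) → π (ll (1 : G)) = 1 →
    (∀ g : G, star (π (ll g)) = π (ll g⁻¹)) →
    (∀ R : Op P, (∀ g : G, R * π (ll g) = π (ll g) * R) → ∀ x, R * π x = π x * R) →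
    ∀ ξ₁ ξ₂ η₁ η₂ : L2 P,
      (∀ g : G, inner ℂ η₁ (π (ll g) ξ₁) = inner ℂ η₂ (π (ll g) ξ₂)) →
      ∀ x, inner ℂ η₁ (π x ξ₁) = inner ℂ η₂ (π x ξ₂)

/-- TV1: a unitary `U : ℓ²(P) → ℓ²(P')` tensored with the identity of `ℓ²(J)` (adaptation of
`Pool.Agent.H257.TW.TVV.main`, with the vectors `tv (U (dl a)) (dl j)`). -/
def S_TV1 : Prop :=
  ∀ (P P' J : Type) (U : L2 P ≃ₗᵢ[ℂ] L2 P'), ∃ V : L2 (P × J) ≃ₗᵢ[ℂ] L2 (P' × J),
    ∀ (x : Op P) (x' : Op P'), (∀ ξ, U (x ξ) = x' (U ξ)) →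
      ∀ ξ, V (TT P J x 1 ξ) = TT P' J x' 1 (V ξ)

/-- the set of the pairs `(a, b)` with `a b⁻¹ ∈ S` -/
def qs {Λ : Type} [Group Λ] (S : Set Λ) : Set (Λ × Λ) := {p | p.1 * p.2⁻¹ ∈ S}

/-- TGT: a vector whose translates are uniformly concentrated near the diagonal gives a tight
operator.
Proof.  `Z ((a, b), j) ≠ 0` for some `a, b, j`; fix this `j` and let `ζ ∈ ℓ²(Λ × Λ)`,
`ζ p = Z (p, j) ≠ 0`.  `(TT y 1 Z) (p, j) = (y ζ) p` (`TT_ap`, `ap_coeff` of `HD.REP`), so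
`‖MM (qs S) (TT (W h) (W h) ζ)‖ ≤ ‖TT (MM (qs S)) 1 (TT (TT (W h) (W h)) 1 Z)‖ =
‖TT (MM (qs S)) 1 Z‖`.  For `ε > 0` there is a finite `A ⊆ Λ` with `‖TT (MM (qs Aᶜ)) 1 Z‖ₑ ^ 2 ≤ ε`
(`HD.REP.exists_small` gives a finite `Φ ⊆ (Λ × Λ) × J`, and `A = {a b⁻¹ | ((a, b), j) ∈ Φ}`; the
operator `TT (MM X) 1` is `MM (X ×ˢ univ)`).  Let `K h`, `h ∈ Λ₁`, be the operator with the entries
`en (K h) a b = (TT (W h) (W h) ζ) (a, b)` (`Pool.Agent.N2.LR.HS.main`; see the end of `TW/TRI.lean`),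
`K = K 1`.  `hs (K h) = ‖TT (W h) (W h) ζ‖ₑ ^ 2 = ‖ζ‖ₑ ^ 2`, and
`tl A (K h) = ‖MM (qs Aᶜ) (TT (W h) (W h) ζ)‖ₑ ^ 2 ≤ ε` for all `h`.  By entries
`K h = W h * K * CC (star (W h))` (the transpose of `w` is `CC (star w)`: `CC_ap`, `star_ap`), so
`K h * star (K h) = W h * (K * star K) * star (W h) = ad (W h) (K * star K)`, since
`CC (star w) * star (CC (star w)) = CC (star w * w) = 1`.  `T = K * star K` is tight: `T ≠ 0`, `hs T < ∞`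
(`HSB.mul`, `HSB.star`), and by `TLB.mul`, `TLB.star`:
`tl (A * A⁻¹) (K h * star (K h)) ≤ 2 tl A (K h) hs (star (K h)) + 2 hs (K h) tl A⁻¹ (star (K h)) =
4 ‖ζ‖ₑ ^ 2 tl A (K h) ≤ 4 ‖ζ‖ₑ ^ 2 ε`.  (`HSB`, `TLB` are proved in `Pool.Agent.H257.HD`: modules `HSB`,
`TLB`, theorems `main`.) -/
def S_TGT : Prop :=
  ∀ (Λ₁ Λ J : Type) [Group Λ₁] [Group Λ] (W : Λ₁ →* unitary (Op Λ)) (Z : L2 ((Λ × Λ) × J)),
    Z ≠ 0 →
    (∀ (h : Λ₁) (S : Set Λ),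
      ‖TT (Λ × Λ) J (MM (qs S)) 1 (TT (Λ × Λ) J (TT Λ Λ (W h) (W h)) 1 Z)‖ =
        ‖TT (Λ × Λ) J (MM (qs S)) 1 Z‖) →
    ∃ T : Op Λ, T ≠ 0 ∧ Tight W T

/-- PK2: the linear packing bound.
Proof.  Fix `j` and write `D i = D i j`, a unit vector of `ℓ²(P)`.  For `p ∈ P` put `c i = D i p`
and `s = ∑_i |c i|²`.  `s = ∑_i conj(c i) (D i p)` is the coordinate at `p` of the vector
`∑_i conj(c i) D i`, so `s² ≤ ‖∑_i conj(c i) D i‖² = ∑_{i,i'} c i conj(c i') ⟨D i, D i'⟩ ≤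
s + ∑_{i ≠ i'} |c i| |c i'| |⟨D i, D i'⟩| ≤ s + s Γ`, `Γ² = ∑_{i ≠ i'} |⟨D i, D i'⟩|²`
(Cauchy–Schwarz), so `s ≤ 1 + Γ_j`.  Sum over `p ∈ E` and over `j`:
`∑_j ∑_i ∑_{p ∈ E} |D i j p|² ≤ |E| (m + ∑_j Γ_j)` and `∑_j Γ_j ≤ √m √(∑_j Γ_j²) ≤
√m √(N² m δ²) = m N δ`.  The left side is at least `N (m - η m)`.  Divide by `m`. -/
def S_PK2 : Prop :=
  ∀ (P : Type) (N m : ℕ) (E : Finset P) (D : Fin N → Fin m → P → ℂ) (δ η : ℝ), 0 < m → 0 ≤ δ →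
    (∀ i j, HasSum (fun p => ‖D i j p‖ ^ 2) 1) →
    (∀ i i', i ≠ i' →
      ∑ j, ‖∑' p, (starRingEnd ℂ) (D i j p) * D i' j p‖ ^ 2 ≤ (m : ℝ) * δ ^ 2) →
    (∀ i, ∑ j, (1 - ∑ p ∈ E, ‖D i j p‖ ^ 2) ≤ η * m) →
    (N : ℝ) * (1 - η - E.card * δ) ≤ E.card

/-- RP2: the representation with the coefficient `|⟨D_θ₁(g), D_θ₂(g)⟩|²`. -/
def S_RP2 : Prop :=
  ∀ (G Λ₁ Λ₂ : Type) [Group G] [Group Λ₁] [Group Λ₂]
    (θ₁ : (LG G).toStarSubalgebra ≃⋆ₐ[ℂ] (LG Λ₁).toStarSubalgebra)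
    (θ₂ : (LG G).toStarSubalgebra ≃⋆ₐ[ℂ] (LG Λ₂).toStarSubalgebra),
    (∀ x, cf (θ₁ x : Op Λ₁) 1 = cf (x : Op G) 1) →
    (∀ x, cf (θ₂ x : Op Λ₂) 1 = cf (x : Op G) 1) →
    ∃ σ : G →* unitary (Op ((G × G) × (G × G))),
      (∀ g, inner ℂ (dl (((1 : G), (1 : G)), ((1 : G), (1 : G))))
          ((σ g : Op ((G × G) × (G × G))) (dl ((1, 1), (1, 1)))) =
        ((‖∑' p, (starRingEnd ℂ) (DD θ₁ g p) * DD θ₂ g p‖ ^ 2 : ℝ) : ℂ)) ∧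
      ((∃ Z : L2 ((G × G) × (G × G)), Z ≠ 0 ∧ ∀ g, (σ g : Op ((G × G) × (G × G))) Z = Z) →
        ∀ W : Λ₁ →* unitary (Op Λ₂),
          (∀ h, (W h : Op Λ₂) = θ₂ (θ₁.symm ⟨lam h, lam_mem h⟩)) →
          ∃ T : Op Λ₂, T ≠ 0 ∧ Tight W T)

end

end Pool.Agent.H257.TY
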